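import Pool.Agent.T2H37.CI.Final

/-!
# Bloch's conjecture for quotients of complete intersections of diagonal hypersurfaces

Let `X` be a smooth complete intersection of dimension `n ≥ 1`, of any codimension `r`, of
hypersurfaces of the same degree `m` with diagonal equations `∑ i, A j i * x i ^ m = 0`, with
arbitrary coefficients, and let `m` be one of the numbers `2, 3, 4, 5, 7`. Let `a` be an integral
combination of the automorphisms of `X` that multiply the coordinates by `m`-th roots of unity. If
`a` acts as zero on the holomorphic `n`-forms of `X`, then it acts as zero on the zero-cycles of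
degree zero modulo rational equivalence, with rational coefficients. By the adjunction formula the
holomorphic `n`-forms are the residues `P Ω / (F_1 ⋯ F_r)` given by the forms `P` of degree
`r m - n - r - 1`, modulo those that vanish on `X`, and an automorphism `g` sends `P` to
`det g • P ∘ g`. For the sum `a` of the elements of a finite group `H` this says: if `X / H` has
geometric genus zero, then the resolutions `Y` of `X / H` satisfy Bloch's conjecture.
-/

set_option autoImplicit false

namespace Pool.Agent.Results.MP_13bc1c_ag.DiagonalCompleteIntersections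

open Pool.Agent.T2H37.CI

theorem result (n r m : ℕ) [NeZero m] (hn : 1 ≤ n)
    (hm : m = 2 ∨ m = 3 ∨ m = 4 ∨ m = 5 ∨ m = 7)
    (A : Matrix (Fin r) (Fin (n + r + 1)) ℂ) (hA : GeneralPosition A)
    (a : Diag ℂ (n + r + 1) m →₀ ℤ)
    (ha : ∀ (d : ℕ) (P : MvPolynomial (Fin (n + r + 1)) ℂ), d + (n + r + 1) = r * m →
      P.IsHomogeneous d → ∀ v : Fin (n + r + 1) → ℂ, (∀ j, ∑ i, A j i * v i ^ m = 0) →
        (a.sum fun g c =>
          (c : ℂ) * ((∏ i, g.1 i) * MvPolynomial.eval (fun i => g.1 i * v i) P)) = 0)
    (z : Pts A m →₀ ℤ) (hz : (z.sum fun _ c => c) = 0) :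
    ∃ k : ℕ, 0 < k ∧ k • (a.sum fun g c => c • z.mapDomain (act g)) ∈ RatEquivZero A m :=
  main hm hA (by omega) a ha z hz

end Pool.Agent.Results.MP_13bc1c_ag.DiagonalCompleteIntersections
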