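import Pool.Agent.T2H37.PR.Dg4

/-!
# Bloch's conjecture for morphisms from a Fermat hypersurface to its powers

Let `X` be the Fermat hypersurface of dimension `n` and degree `m`, `3 ≤ m ≤ 2 n + 1`.  The theorem is
Bloch's conjecture (`c = 1`) for the correspondences between `X` and `X ^ K` that are integral
combinations `a` of the morphisms `x ↦ (g 0 x, ..., g (K - 1) x)`, for linear automorphisms `g k`
of `X`: if `a` acts as zero on the holomorphic forms of positive degree, then `a` acts as zero on the
zero-cycles of degree zero, with rational coefficients.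

The holomorphic forms on `X ^ K` that involve two or more of the factors have zero pullback under
all these morphisms.  So the theorem implies for example that the cycle
`([g x] - [g' x]) × ([h x] - [h' x])` on `X × X` is zero, with rational coefficients, for all points
`x` of `X` and all linear automorphisms `g`, `g'`, `h`, `h'`.
-/

set_option autoImplicit false

namespace Pool.Agent.Results.MP_13bc1c_ag.MorphismsToPowers

open Pool.Agent.T2H37.PR Pool.Agent.T2H37.FK

theorem result (K n m : ℕ) (hm : 3 ≤ m) (hmn : m ≤ 2 * n + 1)
    (a : (Fin K → FermatGroup ℂ (n + 2) m) →₀ ℤ) (ha : KillsPull a)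
    (z : Fermat ℂ (n + 2) m →₀ ℤ) (hz : (z.sum fun _ c => c) = 0) :
    ∃ j : ℕ, 0 < j ∧ j • (a.sum fun g c => c • z.mapDomain (tup g)) ∈
      Pool.Agent.T2H37.PR.RatEquivZero ℂ (fun _ : Fin K => n + 2) m :=
  mainD hm (by omega) a ha z hz

end Pool.Agent.Results.MP_13bc1c_ag.MorphismsToPowers
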