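import Pool.Agent.T2H37.PR.WFinal

/-!
# Bloch's conjecture for quotients of products of Fermat hypersurfaces

Let `X = X_1 × ... × X_K` be a product of Fermat hypersurfaces of degree `m ≥ 3` and of dimensions
`n_k` with `m ≤ 2 n_k + 1`, and let `a` be an integral combination of automorphisms of `X` that are
composed of linear automorphisms of the factors and permutations of factors of equal dimension.  If
`a` acts as zero on the holomorphic forms of positive degree on `X`, then it acts as zero on the
zero-cycles of degree zero modulo rational equivalence, with rational coefficients.  For the sum `a`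
of the elements of a finite group `H` of such automorphisms this says: if the resolutions `Y` of
`X / H` have no holomorphic forms of positive degree, then they satisfy Bloch's conjecture.
-/

set_option autoImplicit false

namespace Pool.Agent.Results.MP_13bc1c_ag.ProductsOfFermatHypersurfaces

open Pool.Agent.T2H37.PR

theorem result (K m : ℕ) (n : Fin K → ℕ) (hm : 3 ≤ m) (hmn : ∀ k, m ≤ 2 * n k + 1)
    (a : PAut ℂ (fun k => n k + 2) m →₀ ℤ)
    (ha : ∀ S : Finset (Fin K), S.Nonempty → KillsType a S)
    (z : Pts ℂ (fun k => n k + 2) m →₀ ℤ) (hz : (z.sum fun _ c => c) = 0) :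
    ∃ j : ℕ, 0 < j ∧
      j • (a.sum fun g c => c • z.mapDomain g.act) ∈ RatEquivZero ℂ (fun k => n k + 2) m :=
  mainU hm (fun k => by have := hmn k; omega) a ha z hz

end Pool.Agent.Results.MP_13bc1c_ag.ProductsOfFermatHypersurfaces
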