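import Pool.Agent.T2H37.PR.Voi

/-!
# Voisin's conjecture on zero-cycles for Fermat hypersurfaces

Let `X` be the Fermat hypersurface of dimension `n` and degree `m`, `3 ≤ m ≤ 2 n + 1`, and let `G` be
a group of linear automorphisms of `X`.  If the geometric genus of `X / G` is less than `K`, then for
all `G`-invariant zero-cycles `z 0, ..., z (K - 1)` of degree zero on `X` the cycle
`∑ σ, sign σ ^ (n + 1) • z (σ 0) × ... × z (σ (K - 1))` is zero in `CH_0(X ^ K)`, with rational
coefficients.  For `K = 1` this is Bloch's conjecture for `X / G`; if the geometric genus is one,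
for example if `X` is a Calabi-Yau hypersurface and `G` is trivial, the case `K = 2` is the
conjecture of Voisin that `z × z' = (-1) ^ n z' × z`.  In general it says that the motive that
describes the zero-cycles of degree zero on `X / G` is finite-dimensional in the sense of Kimura
with the geometric genus as its dimension.
-/

set_option autoImplicit false

namespace Pool.Agent.Results.MP_13bc1c_ag.VoisinConjecture

open Pool.Agent.T2H37.PR Pool.Agent.T2H37.FK

theorem result (K n m : ℕ) (hm : 3 ≤ m) (hmn : m ≤ 2 * n + 1)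
    (G : Subgroup (FermatGroup ℂ (n + 2) m))
    (hG : ∀ P : Fin K → MvPolynomial (Fin (n + 2)) ℂ, (∀ k, InvForm G (P k)) →
      ¬ LinearIndependent ℂ P)
    (z : Fin K → (Fermat ℂ (n + 2) m →₀ ℤ)) (hz : ∀ k, ((z k).sum fun _ c => c) = 0)
    (hzG : ∀ k, ∀ g ∈ G, (z k).mapDomain (Pool.Agent.T2H37.FK.act g) = z k) :
    ∃ j : ℕ, 0 < j ∧ j • (∑ σ : Equiv.Perm (Fin K), ((Equiv.Perm.sign σ : ℤ) ^ (n + 1)) •
      extProd (N := fun _ : Fin K => n + 2) fun k => z (σ k)) ∈
        Pool.Agent.T2H37.PR.RatEquivZero ℂ (fun _ : Fin K => n + 2) m := by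
  have h1 := mainV hm (by omega) G hG z hz hzG
  have h2 : ∀ σ : Equiv.Perm (Fin K), (Equiv.Perm.sign σ : ℤ) ^ (n + 2 + 1) =
      (Equiv.Perm.sign σ : ℤ) ^ (n + 1) := by
    intro σ
    rcases Int.units_eq_one_or (Equiv.Perm.sign σ) with h | h
    · rw [h]
      norm_num
    · rw [h, show n + 2 + 1 = n + 1 + 2 by ring, pow_add]
      norm_num
  simp only [h2] at h1
  exact h1

end Pool.Agent.Results.MP_13bc1c_ag.VoisinConjecture
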